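import Pool.Agent.Work.MP_223b32_t3.Interface

/-!
# GAM: the number of Weil numbers of bounded degree
-/

namespace Pool.Agent.Work.T3

open Finset Polynomial

namespace GAM

/-- the integral polynomials with `B + 1` coefficients in `[-M, M]` -/
noncomputable def pol (B M : ℕ) (c : Fin (B + 1) → Fin (2 * M + 1)) : ℤ[X] :=
  ∑ i : Fin (B + 1), monomial (i : ℕ) (((c i : ℕ) : ℤ) - M)

lemma natDegree_pol (B M : ℕ) (c : Fin (B + 1) → Fin (2 * M + 1)) :
    (pol B M c).natDegree ≤ B := by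
  unfold pol
  refine natDegree_sum_le_of_forall_le _ _ fun i _ => ?_
  exact (natDegree_monomial_le _).trans (by have := i.2; omega)

/-- the roots of these polynomials -/
noncomputable def roots (B M : ℕ) : Finset ℂ :=
  (univ : Finset (Fin (B + 1) → Fin (2 * M + 1))).biUnion fun c =>
    ((pol B M c).aroots ℂ).toFinset

lemma card_roots (B M : ℕ) : (roots B M).card ≤ (2 * M + 1) ^ (B + 1) * B := by
  unfold roots
  refine card_biUnion_le.trans ?_
  refine (sum_le_card_nsmul _ _ B fun c _ => ?_).trans ?_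
  · refine (Multiset.toFinset_card_le _).trans ?_
    refine (Polynomial.card_roots' _).trans ?_
    exact natDegree_map_le.trans (natDegree_pol B M c)
  · rw [card_univ, Fintype.card_fun, Fintype.card_fin, Fintype.card_fin, smul_eq_mul]

lemma mem_roots' {B M : ℕ} {P : ℤ[X]} (h0 : P ≠ 0) (hd : P.natDegree ≤ B)
    (hc : ∀ i, |P.coeff i| ≤ M) {z : ℂ} (hz : aeval z P = 0) : z ∈ roots B M := by
  unfold roots
  rw [mem_biUnion]
  refine ⟨fun i => ⟨(P.coeff i + M).toNat, ?_⟩, mem_univ _, ?_⟩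
  · have := hc i
    rw [abs_le] at this
    omega
  · have hP : pol B M (fun i => ⟨(P.coeff i + M).toNat, by
        have := hc i
        rw [abs_le] at this
        omega⟩) = P := by
      have h1 := P.as_sum_range' (B + 1) (by omega)
      rw [Finset.sum_range] at h1
      refine Eq.trans ?_ h1.symm
      unfold pol
      refine Finset.sum_congr rfl fun i _ => ?_
      congr 1
      have := hc i
      rw [abs_le] at this
      simp only
      omega
    rw [hP, Multiset.mem_toFinset, mem_aroots]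
    exact ⟨h0, hz⟩

lemma coeff_le {q a B : ℕ} (hq : 1 ≤ q) {P : ℤ[X]} (hP : P.Monic) (hd : P.natDegree ≤ B)
    (hr : ∀ z : ℂ, aeval z P = 0 → ‖z‖ ^ 2 = (q : ℝ) ^ a) (i : ℕ) :
    |P.coeff i| ≤ ((q ^ (a * B) * 2 ^ B : ℕ) : ℤ) := by
  have hq1 : (1 : ℝ) ≤ (q : ℝ) ^ a := one_le_pow₀ (by exact_mod_cast hq)
  have h1 := Polynomial.coeff_bdd_of_roots_le (K := ℂ) (B := (q : ℝ) ^ a) (d := B)
    (Int.castRingHom ℂ) hP (IsAlgClosed.splits _) hd ?_ i
  · rw [coeff_map, max_eq_left hq1, ← pow_mul] at h1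
    have h2 : ‖(Int.castRingHom ℂ) (P.coeff i)‖ = |((P.coeff i : ℤ) : ℝ)| := by
      rw [eq_intCast, Complex.norm_intCast]
    rw [h2] at h1
    have h3 : ((B.choose (B / 2) : ℕ) : ℝ) ≤ ((2 ^ B : ℕ) : ℝ) := by
      exact_mod_cast Nat.choose_le_two_pow B (B / 2)
    have h4 : |((P.coeff i : ℤ) : ℝ)| ≤ (q : ℝ) ^ (a * B) * ((2 ^ B : ℕ) : ℝ) :=
      h1.trans (mul_le_mul_of_nonneg_left h3 (by positivity))
    have h5 : ((|P.coeff i| : ℤ) : ℝ) ≤ (((q ^ (a * B) * 2 ^ B : ℕ) : ℤ) : ℝ) := by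
      push_cast
      push_cast at h4
      exact h4
    exact_mod_cast h5
  · intro z hz
    have hz0 : aeval z P = 0 := by
      have := (Polynomial.mem_roots'.1 hz).2
      rw [IsRoot.def, eval_map] at this
      rw [aeval_def]
      simpa using this
    have h2 := hr z hz0
    nlinarith [norm_nonneg z]

lemma arith (q A B : ℕ) (hq : 3 ≤ q) :
    (2 * (q ^ (A * B) * 2 ^ B) + 1) ^ (B + 1) * B ≤ q ^ ((A + 2) * (B + 1) ^ 2) := by
  have h1 : 2 * (q ^ (A * B) * 2 ^ B) + 1 ≤ q ^ (A * B) * q ^ (B + 1) := by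
    have h2 : 2 ^ (B + 1) + 1 ≤ q ^ (B + 1) := by
      have h3 : 2 ^ (B + 1) < 3 ^ (B + 1) := Nat.pow_lt_pow_left (by norm_num) (by omega)
      have h4 : 3 ^ (B + 1) ≤ q ^ (B + 1) := Nat.pow_le_pow_left hq _
      omega
    have h5 : 1 ≤ q ^ (A * B) := Nat.one_le_pow _ _ (by omega)
    calc 2 * (q ^ (A * B) * 2 ^ B) + 1 ≤ 2 * (q ^ (A * B) * 2 ^ B) + q ^ (A * B) := by omega
      _ = q ^ (A * B) * (2 ^ (B + 1) + 1) := by ring
      _ ≤ q ^ (A * B) * q ^ (B + 1) := Nat.mul_le_mul_left _ h2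
  have h2 : B ≤ q ^ (B + 1) := by
    have h3 : B < 3 ^ B := Nat.lt_pow_self (by norm_num)
    have h4 : 3 ^ B ≤ q ^ B := Nat.pow_le_pow_left hq _
    have h5 : q ^ B ≤ q ^ (B + 1) := Nat.pow_le_pow_right (by omega) (by omega)
    omega
  calc (2 * (q ^ (A * B) * 2 ^ B) + 1) ^ (B + 1) * B
      ≤ (q ^ (A * B) * q ^ (B + 1)) ^ (B + 1) * q ^ (B + 1) :=
        Nat.mul_le_mul (Nat.pow_le_pow_left h1 _) h2
    _ = q ^ ((A * B + (B + 1)) * (B + 1) + (B + 1)) := by
        rw [← pow_add, ← pow_mul, ← pow_add]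
    _ ≤ q ^ ((A + 2) * (B + 1) ^ 2) := by
        refine Nat.pow_le_pow_right (by omega) ?_
        nlinarith [Nat.zero_le (A * (B + 1)), Nat.zero_le (B * (B + 1))]

end GAM

/-- GAM. -/
theorem stmt_GAM : Stmt_GAM := by
  intro q A B hq
  refine ⟨GAM.roots B (q ^ (A * B) * 2 ^ B), ?_, (GAM.card_roots _ _).trans
    (GAM.arith q A B hq)⟩
  intro a ha γ hγ
  obtain ⟨P, hP, hd, h0, hr⟩ := hγ
  rw [mem_coe]
  refine GAM.mem_roots' hP.ne_zero hd (fun i => ?_) h0
  refine (GAM.coeff_le (by omega) hP hd hr i).trans ?_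
  exact_mod_cast Nat.mul_le_mul_right _ (Nat.pow_le_pow_right (by omega)
    (Nat.mul_le_mul_right _ ha))

end Pool.Agent.Work.T3
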