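import Pool.Agent.Work.MP_223b32_t3.Interface
import Pool.Agent.Work.MP_223b32_tc_helper28.ONE

/-!
# ONER: a bad tuple satisfies one of the linear conditions
-/

namespace Pool.Agent.Work.T3

open Finset Polynomial TensorProduct Pool.Agent.Work.MP_223b32_ag Pool.Agent.Work.TC

/-- ONER. -/
theorem stmt_ONER (hFROB : Stmt_FROB) (hB4 : Stmt_B4) (hFE : Stmt_FE) (hRHO : Stmt_RHO)
    (hRED : Stmt_RED) (hMOD8R : Stmt_MOD8R) (hSTAR : Stmt_STAR) (hDSYM : Stmt_DSYM)
    (hFLAR : Stmt_FLAR) : Stmt_ONER := by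
  classical
  intro F K _ _ _ _ _ _ hF n hn hn2 hfin G _ _ _ hG T A B J hB Γ hΓ
  obtain ⟨ρ⟩ := hRHO
  have hn1 : n - 1 + 1 = n := Nat.sub_add_cancel hn.one_le
  have hodd : Odd n := hn.odd_of_ne_two hn2
  set q := Fintype.card F with hq
  have hqodd : Odd q := Nat.odd_iff.2 (FiniteField.odd_card_of_char_ne_two hF)
  have hq1 : 1 < q := Fintype.one_lt_card
  have hNeven : Even (n - 1) := by
    obtain ⟨k, hk⟩ := hodd
    exact ⟨k, by omega⟩
  have hn2' : 2 * (n / 2) + 1 = n := by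
    obtain ⟨k, hk⟩ := hodd
    omega
  have hGalg : Algebra.IsAlgebraic (ZMod 2) G := by
    have : Module.Finite (ZMod 2) G := Module.Finite.of_finite
    infer_instance
  set ι : G →ₐ[ZMod 2] AlgebraicClosure (ZMod 2) := IsAlgClosed.lift with hι
  have hιinj : Function.Injective ι := ι.toRingHom.injective
  choose cm hcm using fun (a : ℕ) (γ : ℂ) => hMOD8R ρ (n - 1) q hNeven hqodd a γ
  -- the weight of a Weil number
  set wt : ℂ → ℕ := fun γ => if h : ∃ a : ℕ, ‖γ‖ ^ 2 = (q : ℝ) ^ a then h.choose else 0 with hwt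
  have hwt' : ∀ (γ : ℂ) (a : ℕ), ‖γ‖ ^ 2 = (q : ℝ) ^ a → wt γ = a := by
    intro γ a h
    have hex : ∃ a : ℕ, ‖γ‖ ^ 2 = (q : ℝ) ^ a := ⟨a, h⟩
    have h1 : wt γ = hex.choose := by
      simp only [hwt]
      rw [dif_pos hex]
    have h2 := hex.choose_spec
    rw [← h1, h] at h2
    have h3 : (1 : ℝ) < q := by exact_mod_cast hq1
    exact (pow_right_injective₀ (by linarith) h3.ne' h2).symm
  refine ⟨fun γ v I => (((∑ t, (I t).card * kap (q ^ n) : ℕ) : G) +
    ∑ t, (eps q : G) * ∑ ζ ∈ I t, ∑ k ∈ Icc 1 (n / 2), (ζ ^ k + ζ ^ (2 * k))) +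
    if h : ∃ y : G, ι y = cm (wt γ) γ v then h.choose else 0, ?_⟩
  intro a ha hbad
  choose c r β β' w hc hfrob h1 h2 h3 h4 h5 h6 h7 using fun t =>
    ONE.data hFROB hB4 hFE hRED hF n hn hn2 hfin ρ (a t) (ha t)
  set c0 : ℂ := ((@quadraticChar F _ _ (Classical.decEq F) (-1) : ℤ) : ℂ) with hc0
  have hc2 : c0 ^ 2 = 1 := by
    have h8 : (@quadraticChar F _ _ (Classical.decEq F) (-1)) ^ 2 = 1 := by
      exact @quadraticChar_sq_one F _ _ (Classical.decEq F) (-1) (neg_ne_zero.2 one_ne_zero)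
    rw [hc0]
    exact_mod_cast congrArg (Int.cast : ℤ → ℂ) h8
  have hc00 : c0 ≠ 0 := by
    intro h0
    rw [h0] at hc2
    norm_num at hc2
  -- no eigenvalue is a square root of `q`
  have hnsq : ∀ z : ℂ, (∃ t i, z = c t * β t i) → z ^ 2 ≠ q := by
    rintro z ⟨t, i, rfl⟩ hz
    rw [hc, mul_pow, hc2, one_mul, ← h1] at hz
    have h8 : β' t i ^ 2 = (q : integralClosure ℤ ℂ) := by
      apply Subtype.ext
      push_cast
      exact hz
    have h9 := congrArg ρ h8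
    rw [map_pow, map_natCast] at h9
    obtain ⟨u, hu⟩ := hqodd
    have h10 : ((q : ℕ) : AlgebraicClosure (ZMod 2)) = 1 := by
      rw [hu]
      push_cast
      have : (2 : AlgebraicClosure (ZMod 2)) = 0 := CharTwo.two_eq_zero
      rw [this]
      ring
    rw [h10] at h9
    have h11 : (ρ (β' t i) - 1) ^ 2 = 0 := by
      have : (2 : AlgebraicClosure (ZMod 2)) = 0 := CharTwo.two_eq_zero
      linear_combination h9 - (ρ (β' t i) - 1) * this
    have h12 : ρ (β' t i) - 1 = 0 := pow_eq_zero_iff (two_ne_zero) |>.1 h11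
    exact (h4 t i).2 (sub_eq_zero.1 h12)
  -- there is an unbalanced relation
  have hrel : ∃ a' ≤ A, ∃ γ ∈ weil q a' B, ∃ s : Multiset ℂ, (∀ z ∈ s, ∃ t i, z = β t i) ∧
      s.card ≤ 2 * J ∧
      (∃ M : ℕ, 0 < M ∧ (γ * s.prod) ^ (2 * M) = (q : ℂ) ^ (M * (a' + s.card))) ∧
      ¬ ∀ t i, s.count ((q : ℂ) / β t i) = s.count (β t i) := by
    by_contra hcon
    push Not at hcon
    apply hbad
    refine ⟨fun t i => c t * β t i, fun t => hfrob t, ?_⟩
    intro V _ _ _ Φ hΦ hev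
    refine hFLAR V Φ hΦ q hq1 (fun μ => ∃ t i, μ = c t * β t i) A B J hB hnsq ?_ hev
    intro a' ha' γ hγ s hs hsJ M hM hsM z hz
    obtain ⟨t0, i0, rfl⟩ := hz
    have hinj : Function.Injective fun z : ℂ => c0 * z := fun x y hxy => by
      exact mul_left_cancel₀ hc00 hxy
    have hcc : ∀ z : ℂ, c0 * (c0 * z) = z := fun z => by
      rw [← mul_assoc, ← pow_two, hc2, one_mul]
    have h8 := hcon a' ha' γ hγ (s.map fun z => c0 * z) ?_ ?_ ⟨M, hM, ?_⟩ t0 i0
    · have e1 : c t0 * β t0 i0 = c0 * β t0 i0 := by rw [hc]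
      rw [e1]
      have e2 : (q : ℂ) / (c0 * β t0 i0) = c0 * ((q : ℂ) / β t0 i0) := by
        have : (1 : ℂ) / c0 = c0 := by
          rw [div_eq_iff hc00, ← pow_two, hc2]
        rw [mul_comm c0, ← div_div, div_eq_mul_one_div _ c0, this, mul_comm]
      rw [e2]
      have e3 : ∀ z : ℂ, s.count (c0 * z) = (s.map fun z => c0 * z).count z := by
        intro z
        conv_rhs => rw [← hcc z]
        exact (Multiset.count_map_eq_count' _ _ hinj _).symm
      rw [e3, e3]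
      exact h8
    · intro z hz
      obtain ⟨y, hy, rfl⟩ := Multiset.mem_map.1 hz
      obtain ⟨t, i, rfl⟩ := hs y hy
      exact ⟨t, i, by rw [hc, hcc]⟩
    · simpa using hsJ
    · rw [Multiset.prod_map_mul, Multiset.map_const', Multiset.prod_replicate, Multiset.map_id',
        Multiset.card_map]
      have e4 : (γ * (c0 ^ s.card * s.prod)) ^ (2 * M) =
          (c0 ^ 2) ^ (s.card * M) * (γ * s.prod) ^ (2 * M) := by
        rw [← pow_mul, mul_pow, mul_pow, mul_pow, ← pow_mul,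
          show s.card * (2 * M) = 2 * (s.card * M) by ring]
        ring
      rw [e4, hc2, one_pow, one_mul, hsM]
  obtain ⟨a', ha', γ, hγ, s, hs, hsJ, ⟨M, hM, hsM⟩, hns⟩ := hrel
  have hγw : wt γ = a' := by
    obtain ⟨P, _, _, hP0, hP⟩ := hγ
    exact hwt' γ a' (hP γ hP0)
  refine ⟨γ, by exact_mod_cast hΓ a' ha' hγ, ?_⟩
  rcases hcm a' γ T r β β' w h1 h2 h3 h4 h5 h6 s hs M hM hsM with h8 | h8
  · exact absurd h8 hns
  obtain ⟨v, I, hv, hIne, hIcard, hIadm, hIsum⟩ := h8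
  rw [hn1] at hIadm hIsum
  -- descent to `G`
  have hImem : ∀ t, ∀ ζ ∈ I t, ∃ x : G, ι x = ζ := by
    intro t ζ hζ
    have hζn := (hIadm t ζ hζ).1
    refine ONE.mem_range_of_pow_card (ι : G →+* AlgebraicClosure (ZMod 2)) ζ ?_
    have hdvd : n ∣ 2 ^ orderOf (2 : ZMod n) - 1 := by
      have e1 : ((2 ^ orderOf (2 : ZMod n) - 1 : ℕ) : ZMod n) = 0 := by
        rw [Nat.cast_sub (Nat.one_le_two_pow)]
        push_cast
        rw [pow_orderOf_eq_one, sub_self]
      exact (ZMod.natCast_eq_zero_iff _ _).1 e1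
    obtain ⟨v, hv⟩ := hdvd
    have e2 : Fintype.card G = n * v + 1 := by
      rw [hG, ← hv, Nat.sub_add_cancel Nat.one_le_two_pow]
    rw [e2, pow_succ, pow_mul, hζn, one_pow, one_mul]
  set IG : Fin T → Finset G := fun t => univ.filter fun x => ι x ∈ I t with hIG
  have hImap : ∀ t, I t = (IG t).map ⟨ι, hιinj⟩ := by
    intro t
    ext ζ
    simp only [mem_map, Function.Embedding.coeFn_mk, hIG, mem_filter, mem_univ, true_and]
    constructor
    · intro hζ
      obtain ⟨x, rfl⟩ := hImem t ζ hζ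
      exact ⟨x, hζ, rfl⟩
    · rintro ⟨x, hx, rfl⟩
      exact hx
  have hcardG : ∀ t, (IG t).card = (I t).card := by
    intro t
    rw [hImap t, card_map]
  refine ⟨v, IG, hv.trans hsJ, ?_, ?_, ?_, ?_⟩
  · obtain ⟨t, ht⟩ := hIne
    refine ⟨t, ?_⟩
    rw [← Finset.card_pos, hcardG, Finset.card_pos]
    exact ht
  · simp only [hcardG]
    exact hIcard.trans hsJ
  · intro t x hx
    have hx' : ι x ∈ I t := (mem_filter.1 hx).2
    obtain ⟨e1, e2, e3⟩ := hIadm t _ hx'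
    refine ⟨hιinj (by rw [map_pow, e1, map_one]), fun h => e2 (by rw [h, map_one]), fun h => e3 ?_⟩
    have := (mem_filter.1 h).2
    rwa [map_inv₀] at this
  · have hstar : ∀ t, ∑ ζ ∈ I t, (ZZ n (r t) ζ + ZZ n (r t) ζ ^ 2) =
        ∑ k ∈ Icc 1 (n / 2), (dl F (a t) k : AlgebraicClosure (ZMod 2)) * cc n (I t) k +
          (eps q : AlgebraicClosure (ZMod 2)) *
            ∑ ζ ∈ I t, ∑ k ∈ Icc 1 (n / 2), (ζ ^ k + ζ ^ (2 * k)) := by
      intro t
      have e1 := hSTAR (AlgebraicClosure (ZMod 2)) (n / 2) (eps q) (r t) ?_ (I t) ?_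
      · rw [hn2'] at e1
        rw [e1]
        congr 1
        refine Finset.sum_congr rfl fun k hk => ?_
        rw [h7 t k (mem_Icc.1 hk).1 (by have := (mem_Icc.1 hk).2; omega)]
      · intro k hk1 hk2
        rw [hn2', h7 t (n - k) (by omega) (by omega), h7 t k hk1 (by omega)]
        exact hDSYM F K hF n hn hn2 hfin (a t) (ha t) k hk1 (by omega)
      · rw [hn2']
        exact hIadm t
    have hcc' : ∀ t k, cc n (I t) k = ι (cc n (IG t) k) := by
      intro t k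
      rw [hImap t]
      simp [cc, Finset.sum_map]
    have hee : ∀ t, ∑ ζ ∈ I t, ∑ k ∈ Icc 1 (n / 2), (ζ ^ k + ζ ^ (2 * k)) =
        ι (∑ ζ ∈ IG t, ∑ k ∈ Icc 1 (n / 2), (ζ ^ k + ζ ^ (2 * k))) := by
      intro t
      rw [hImap t]
      simp [Finset.sum_map]
    have hchar : ∀ x : AlgebraicClosure (ZMod 2), x + x = 0 := CharTwo.add_self_eq_zero
    rw [Finset.sum_congr rfl fun t _ => hstar t, Finset.sum_add_distrib] at hIsum
    have hL : ι (∑ t, ∑ k ∈ Icc 1 (n / 2), (dl F (a t) k : G) * cc n (IG t) k) =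
        ∑ t, ∑ k ∈ Icc 1 (n / 2), (dl F (a t) k : AlgebraicClosure (ZMod 2)) * cc n (I t) k := by
      simp only [hcc', map_sum, map_mul, map_natCast]
    have hR : ι (((∑ t, (IG t).card * kap (q ^ n) : ℕ) : G) +
        ∑ t, (eps q : G) * ∑ ζ ∈ IG t, ∑ k ∈ Icc 1 (n / 2), (ζ ^ k + ζ ^ (2 * k))) =
        ((∑ t, (I t).card * kap (q ^ n) : ℕ) : AlgebraicClosure (ZMod 2)) +
        ∑ t, (eps q : AlgebraicClosure (ZMod 2)) *
          ∑ ζ ∈ I t, ∑ k ∈ Icc 1 (n / 2), (ζ ^ k + ζ ^ (2 * k)) := by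
      simp only [hee, map_add, map_sum, map_mul, map_natCast, hcardG]
    have hkey : cm (wt γ) γ v =
        ι ((∑ t, ∑ k ∈ Icc 1 (n / 2), (dl F (a t) k : G) * cc n (IG t) k) +
          (((∑ t, (IG t).card * kap (q ^ n) : ℕ) : G) +
          ∑ t, (eps q : G) * ∑ ζ ∈ IG t, ∑ k ∈ Icc 1 (n / 2), (ζ ^ k + ζ ^ (2 * k)))) := by
      rw [map_add, hL, hR, hγw]
      have e5 := hchar (((∑ t, (I t).card * kap (q ^ n) : ℕ) : AlgebraicClosure (ZMod 2)))
      linear_combination -hIsum - e5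
    have hex : ∃ y : G, ι y = cm (wt γ) γ v := ⟨_, hkey.symm⟩
    beta_reduce
    rw [dif_pos hex]
    apply hιinj
    have key : ∀ L R y : G, ι y = ι (L + R) → ι L = ι (R + y) := by
      intro L R y h
      rw [map_add ι R y, h, map_add]
      linear_combination -(hchar (ι R))
    exact key _ _ _ (hex.choose_spec.trans hkey)

end Pool.Agent.Work.T3
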